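import Pool.Agent.Q90.NmSum
import Pool.Agent.Q90.NmUnit

set_option autoImplicit false

/-!
There is a simple, separable, nonunital C*-algebra whose multiplier algebra has a proper nonmeagre
ideal. Definitions: `Q90.ZS.IsSimple` in `Pool.Agent.Q90.ZsDefs`, the others in
`Pool.Agent.Q90.NmDefs`.
-/

open scoped MultiplierAlgebra

namespace Pool.Agent.Results.MP_86e2e0_an.ProperNonmeagreIdeal

open Q90.NM

/-- There is a simple separable nonunital C*-algebra `A` such that `𝓜(A)` has a proper (even norm
closed) nonmeagre two-sided ideal `I` which contains `A`. (`A` has good approximate identities, so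
that the condition of being nonmeagre is not void.) -/
theorem result :
    ∃ (A : Type) (_ : NonUnitalCStarAlgebra A),
      Q90.ZS.IsSimple A ∧ TopologicalSpace.SeparableSpace A ∧ IsNonunital A ∧
      (∃ e : ℕ → A, GoodApproxIdentity e) ∧
      ∃ I : Submodule ℂ 𝓜(ℂ, A), IsTwoSided I ∧ (∀ a : A, DoubleCentralizer.coe ℂ a ∈ I) ∧
        I ≠ ⊤ ∧ IsClosed (I : Set 𝓜(ℂ, A)) ∧ Nonmeagre I :=
  ⟨AT, inferInstance, simple_AT, separable_AT, nonunital_AT, ⟨uu, good_uu⟩, II, II_twoSided,
    coe_mem_II, II_ne_top, II_closed, nonmeagre_II⟩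

end Pool.Agent.Results.MP_86e2e0_an.ProperNonmeagreIdeal
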